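import Pool.Agent.Lib.MP_2e793b_nt.Iface

set_option autoImplicit false

namespace Pool.Agent.Lib.MP_2e793b_nt.H59

open Finset Pool.Agent.Lib.MP_2e793b_nt
open scoped Classical

/-- LOC. The local conditions. -/
theorem loc : LocStmt := by
  intro a m l h ha hm hP
  obtain ⟨hl, h43, hJ⟩ := hP
  have : Fact l.Prime := ⟨hl⟩
  have hl2 : l ≠ 2 := by rintro rfl; norm_num at h43
  have hleg : legendreSym l a = -1 := by
    rw [jacobiSym.legendreSym.to_jacobiSym]; exact hJ
  have ha0 : ((a : ℤ) : ZMod l) ≠ 0 := by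
    intro h0
    rw [(legendreSym.eq_zero_iff l a).2 h0] at hleg
    norm_num at hleg
  have haZ : ((a : ℤ) : ZMod l) = (h : ZMod l) * (m : ZMod l) := by
    rw [ha]; push_cast; ring
  have hh0 : (h : ZMod l) ≠ 0 := by
    intro h0; apply ha0; rw [haZ, h0, zero_mul]
  have hm0 : (m : ZMod l) ≠ 0 := by
    intro h0; apply ha0; rw [haZ, h0, mul_zero]
  have hnsq1 : ¬ IsSquare (-1 : ZMod l) := by
    rw [ZMod.exists_sq_eq_neg_one_iff]
    omega
  have hleg1 : legendreSym l (-1) = -1 := by
    rw [legendreSym.eq_neg_one_iff]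
    simpa using hnsq1
  have hlegna : legendreSym l (-a) = 1 := by
    have : (-a : ℤ) = (-1) * a := by ring
    rw [this, legendreSym.mul, hleg1, hleg]; norm_num
  have hna0 : (((-a : ℤ)) : ZMod l) ≠ 0 := by
    push_cast
    exact neg_ne_zero.2 ha0
  have hsq : IsSquare (((-a : ℤ)) : ZMod l) := (legendreSym.eq_one_iff l hna0).1 hlegna
  obtain ⟨s, hs⟩ := hsq
  set r : ZMod l := s / (m : ZMod l) with hr
  have hs0 : s ≠ 0 := by
    rintro rfl
    apply hna0
    rw [hs]; ring
  have hr0 : r ≠ 0 := div_ne_zero hs0 hm0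
  have hss : s * s = - ((h : ZMod l) * (m : ZMod l)) := by
    rw [← hs]; push_cast; rw [← haZ]
  have hroot : (m : ZMod l) * r ^ 2 + (h : ZMod l) = 0 := by
    rw [hr]
    field_simp
    rw [sq, hss]; ring
  have hchar : (2 : ZMod l) ≠ 0 := by
    intro h2
    have : ((2 : ℕ) : ZMod l) = 0 := by exact_mod_cast h2
    rw [ZMod.natCast_eq_zero_iff] at this
    exact hl2 ((Nat.prime_dvd_prime_iff_eq hl Nat.prime_two).1 this)
  have hne : r.val ≠ (-r).val := by
    intro he
    have h1 : r = -r := ZMod.val_injective l he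
    have h2 : (2 : ZMod l) * r = 0 := by linear_combination h1
    rcases mul_eq_zero.1 h2 with h3 | h3
    · exact hchar h3
    · exact hr0 h3
  have key : ∀ x : ℕ, ((l : ℤ) ∣ m * (x : ℤ) ^ 2 + h) ↔ ((x : ZMod l) = r ∨ (x : ZMod l) = -r) := by
    intro x
    rw [← ZMod.intCast_zmod_eq_zero_iff_dvd]
    push_cast
    constructor
    · intro h1
      have h2 : (m : ZMod l) * (((x : ZMod l) - r) * ((x : ZMod l) + r)) = 0 := by
        linear_combination h1 - hroot
      rcases mul_eq_zero.1 h2 with h3 | h3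
      · exact absurd h3 hm0
      · rcases mul_eq_zero.1 h3 with h4 | h4
        · left; exact sub_eq_zero.1 h4
        · right; exact eq_neg_of_add_eq_zero_left h4
    · rintro (h1 | h1)
      · rw [h1]; exact hroot
      · rw [h1]; linear_combination hroot
  refine ⟨?_, ?_⟩
  · have hset : ((range l).filter (fun x : ℕ => (l : ℤ) ∣ m * (x : ℤ) ^ 2 + h)) =
        {r.val, (-r).val} := by
      ext x
      simp only [mem_filter, mem_range, mem_insert, mem_singleton]
      constructor
      · rintro ⟨hx, hd⟩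
        rcases (key x).1 hd with h1 | h1
        · left; rw [← h1, ZMod.val_natCast, Nat.mod_eq_of_lt hx]
        · right; rw [← h1, ZMod.val_natCast, Nat.mod_eq_of_lt hx]
      · rintro (rfl | rfl)
        · exact ⟨ZMod.val_lt r, (key _).2 (Or.inl (by simp))⟩
        · exact ⟨ZMod.val_lt (-r), (key _).2 (Or.inr (by simp))⟩
    rw [hset, card_pair hne]
  · intro q u v huv hd
    rw [← huv] at hd ⊢
    have hd' : l ∣ u ^ 2 + v ^ 2 := by exact_mod_cast hd
    have hz : ((u : ZMod l)) ^ 2 + (v : ZMod l) ^ 2 = 0 := by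
      have := (ZMod.natCast_eq_zero_iff (u ^ 2 + v ^ 2) l).2 hd'
      push_cast at this
      exact this
    have hv : (v : ZMod l) = 0 := by
      by_contra hv0
      apply hnsq1
      refine ⟨(u : ZMod l) / (v : ZMod l), ?_⟩
      field_simp
      linear_combination -hz
    have hu : (u : ZMod l) = 0 := by
      rw [hv] at hz
      have : ((u : ZMod l)) ^ 2 = 0 := by linear_combination hz
      exact pow_eq_zero_iff (two_ne_zero) |>.1 this
    have hv' : l ∣ v := (ZMod.natCast_eq_zero_iff v l).1 hv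
    have hu' : l ∣ u := (ZMod.natCast_eq_zero_iff u l).1 hu
    have : l ^ 2 ∣ u ^ 2 + v ^ 2 := dvd_add (pow_dvd_pow_of_dvd hu' 2) (pow_dvd_pow_of_dvd hv' 2)
    exact_mod_cast this

end Pool.Agent.Lib.MP_2e793b_nt.H59
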